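import Pool.Agent.Helper71.P4.St

/-!
# MP_3dd6d4_an, project P4, module X1 (helper60): moment identities by parts
-/

set_option autoImplicit false

open MeasureTheory Set Filter Topology
open scoped ENNReal

noncomputable section

namespace Helper71.P4

open Helper69.CR

private lemma pp_cont_X1 (n : ℕ) : Continuous (pp n) := by
  unfold pp
  exact continuous_finsetSum _ (fun i _ => continuous_const.mul (continuous_pow i))

/-- integral over `[0,1]` of a continuous derivative with vanishing boundary values. -/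
private lemma parts_X1 (F g : ℝ → ℝ) (hF : ∀ s : ℝ, HasDerivAt F (g s) s) (hg : Continuous g)
    (h0 : F 0 = 0) (h1 : F 1 = 0) : ∫ s in (0 : ℝ)..1, g s = 0 := by
  rw [intervalIntegral.integral_eq_sub_of_hasDerivAt (fun s _ => hF s)
    (hg.intervalIntegrable 0 1), h0, h1, sub_zero]

theorem hX1 (hU : StU) : StX1 := by
  intro n hn
  obtain ⟨hcu, hcv, hpu, hdv, ⟨w, hcw, hdu, hw⟩, _, hu0, hv0, hu1, hv1, hp0⟩ := hU n hn
  have hcp : Continuous (pp n) := pp_cont_X1 n
  have hn0 : (n : ℝ) ≠ 0 := by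
    have : (n : ℕ) ≠ 0 := by omega
    exact_mod_cast this
  have hcs : ∀ m : ℕ, Continuous (fun s : ℝ => s ^ m) := fun m => continuous_pow m
  -- interval integrability of the basic integrands
  have iu : ∀ m : ℕ, IntervalIntegrable (fun s : ℝ => s ^ m * uu n s ^ 2) volume 0 1 := fun m =>
    ((hcs m).mul (hcu.pow 2)).intervalIntegrable 0 1
  have iz : ∀ m : ℕ, IntervalIntegrable (fun s : ℝ => s ^ m * (uu n s * vv n s)) volume 0 1 :=
    fun m => ((hcs m).mul (hcu.mul hcv)).intervalIntegrable 0 1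
  have iy : ∀ m : ℕ, IntervalIntegrable (fun s : ℝ => s ^ m * vv n s ^ 2) volume 0 1 := fun m =>
    ((hcs m).mul (hcv.pow 2)).intervalIntegrable 0 1
  have ix : ∀ m : ℕ, IntervalIntegrable (fun s : ℝ => s ^ m * ((1 - s) * pp n s ^ 2)) volume 0 1 :=
    fun m => ((hcs m).mul ((continuous_const.sub continuous_id).mul
      (hcp.pow 2))).intervalIntegrable 0 1
  -- first identity
  have hX : ∀ m : ℕ, Xm n m - Xm n (m + 1) =
      (n : ℝ) ^ 2 * ∫ s in (0 : ℝ)..1, s ^ m * uu n s ^ 2 := by
    intro m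
    unfold Xm
    rw [← intervalIntegral.integral_sub (ix m) (ix (m + 1)),
      ← intervalIntegral.integral_const_mul]
    congr 1
    funext s
    have h := hpu s
    have : s ^ m * ((1 - s) * pp n s ^ 2) - s ^ (m + 1) * ((1 - s) * pp n s ^ 2) =
        s ^ m * ((1 - s) * pp n s) ^ 2 := by ring
    rw [this, h]
    ring
  -- (a)
  have ha : ∀ m : ℕ, ((m : ℝ) + 1) * (∫ s in (0 : ℝ)..1, s ^ m * uu n s ^ 2) =
      2 * n * ∫ s in (0 : ℝ)..1, s ^ m * (uu n s * vv n s) := by
    intro m
    have key := parts_X1 (fun s => s ^ (m + 1) * uu n s ^ 2)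
      (fun s => ((m : ℝ) + 1) * (s ^ m * uu n s ^ 2) - 2 * n * (s ^ m * (uu n s * vv n s)))
      (by
        intro s
        have h1 := (hasDerivAt_pow (m + 1) s).mul ((hdu s).pow 2)
        refine h1.congr_deriv ?_
        have hws := hw s
        simp only [Nat.add_sub_cancel, Pi.pow_apply, Pi.mul_apply]
        push_cast
        have : s ^ (m + 1) * (2 * uu n s ^ 1 * w s) = 2 * s ^ m * uu n s * (s * w s) := by ring
        rw [hws] at this
        linear_combination this)
      ((continuous_const.mul ((hcs m).mul (hcu.pow 2))).sub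
        (continuous_const.mul ((hcs m).mul (hcu.mul hcv))))
      (by simp) (by simp [hu1])
    rw [intervalIntegral.integral_sub ((iu m).const_mul _) ((iz m).const_mul _),
      intervalIntegral.integral_const_mul, intervalIntegral.integral_const_mul] at key
    linarith
  -- (b)
  have hb : ∀ m : ℕ, ((m : ℝ) + 1) * (∫ s in (0 : ℝ)..1, s ^ m * (uu n s * vv n s)) =
      n * (∫ s in (0 : ℝ)..1, s ^ m * vv n s ^ 2) - (1 / n) * Xm n (m + 1) := by
    intro m
    have key := parts_X1 (fun s => s ^ (m + 1) * (uu n s * vv n s))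
      (fun s => ((m : ℝ) + 1) * (s ^ m * (uu n s * vv n s)) - (n * (s ^ m * vv n s ^ 2) -
        (1 / n) * (s ^ (m + 1) * ((1 - s) * pp n s ^ 2))))
      (by
        intro s
        have h1 := (hasDerivAt_pow (m + 1) s).mul ((hdu s).mul (hdv s))
        refine h1.congr_deriv ?_
        have hws := hw s
        have hps := hpu s
        simp only [Nat.add_sub_cancel, Pi.pow_apply, Pi.mul_apply]
        push_cast
        have e1 : s ^ (m + 1) * (w s * vv n s) = s ^ m * vv n s * (s * w s) := by ring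
        rw [hws] at e1
        have e2 : (1 / (n : ℝ)) * (s ^ (m + 1) * ((1 - s) * pp n s ^ 2)) =
            s ^ (m + 1) * (uu n s * pp n s) := by
          have : (1 / (n : ℝ)) * (s ^ (m + 1) * ((1 - s) * pp n s ^ 2)) =
            (1 / (n : ℝ)) * (s ^ (m + 1) * (((1 - s) * pp n s) * pp n s)) := by ring
          rw [this, hps]
          field_simp
        rw [e2]
        linear_combination e1)
      ((continuous_const.mul ((hcs m).mul (hcu.mul hcv))).sub
        ((continuous_const.mul ((hcs m).mul (hcv.pow 2))).sub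
          (continuous_const.mul ((hcs (m + 1)).mul ((continuous_const.sub continuous_id).mul
            (hcp.pow 2))))))
      (by simp) (by simp [hu1])
    rw [intervalIntegral.integral_sub ((iz m).const_mul _)
        (((iy m).const_mul _).sub ((ix (m + 1)).const_mul _)),
      intervalIntegral.integral_sub ((iy m).const_mul _) ((ix (m + 1)).const_mul _),
      intervalIntegral.integral_const_mul, intervalIntegral.integral_const_mul,
      intervalIntegral.integral_const_mul] at key
    unfold Xm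
    linarith
  -- (c), m ≥ 1
  have hc : ∀ m : ℕ, ((m : ℝ) + 2) * (∫ s in (0 : ℝ)..1, s ^ (m + 1) * vv n s ^ 2) -
      ((m : ℝ) + 1) * (∫ s in (0 : ℝ)..1, s ^ m * vv n s ^ 2) =
      2 * n * ∫ s in (0 : ℝ)..1, s ^ (m + 1) * (uu n s * vv n s) := by
    intro m
    have key := parts_X1 (fun s => s ^ (m + 1) * ((1 - s) * vv n s ^ 2))
      (fun s => (((m : ℝ) + 1) * (s ^ m * vv n s ^ 2) -
        ((m : ℝ) + 2) * (s ^ (m + 1) * vv n s ^ 2)) +
        2 * n * (s ^ (m + 1) * (uu n s * vv n s)))
      (by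
        intro s
        have h0 : HasDerivAt (fun s : ℝ => 1 - s) (-1) s := by
          simpa using (hasDerivAt_id s).const_sub 1
        have h1 := (hasDerivAt_pow (m + 1) s).mul (h0.mul ((hdv s).pow 2))
        refine h1.congr_deriv ?_
        have hps := hpu s
        simp only [Nat.add_sub_cancel, Pi.pow_apply, Pi.mul_apply]
        push_cast
        have e2 : s ^ (m + 1) * ((1 - s) * (2 * vv n s ^ 1 * pp n s)) =
            2 * s ^ (m + 1) * vv n s * ((1 - s) * pp n s) := by ring
        rw [hps] at e2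
        linear_combination e2)
      (((continuous_const.mul ((hcs m).mul (hcv.pow 2))).sub
        (continuous_const.mul ((hcs (m + 1)).mul (hcv.pow 2)))).add
        (continuous_const.mul ((hcs (m + 1)).mul (hcu.mul hcv))))
      (by simp) (by simp)
    rw [intervalIntegral.integral_add (((iy m).const_mul _).sub ((iy (m + 1)).const_mul _))
        ((iz (m + 1)).const_mul _),
      intervalIntegral.integral_sub ((iy m).const_mul _) ((iy (m + 1)).const_mul _),
      intervalIntegral.integral_const_mul, intervalIntegral.integral_const_mul,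
      intervalIntegral.integral_const_mul] at key
    linarith
  -- (c), m = 0
  have hc0 : (∫ s in (0 : ℝ)..1, s ^ 0 * vv n s ^ 2) =
      2 * n * ∫ s in (0 : ℝ)..1, s ^ 0 * (uu n s * vv n s) := by
    have key := parts_X1 (fun s => (1 - s) * vv n s ^ 2)
      (fun s => 2 * n * (s ^ 0 * (uu n s * vv n s)) - s ^ 0 * vv n s ^ 2)
      (by
        intro s
        have h0 : HasDerivAt (fun s : ℝ => 1 - s) (-1) s := by
          simpa using (hasDerivAt_id s).const_sub 1
        have h1 := h0.mul ((hdv s).pow 2)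
        refine h1.congr_deriv ?_
        have hps := hpu s
        simp only [Pi.pow_apply, Pi.mul_apply]
        push_cast
        have e2 : (1 - s) * (2 * vv n s ^ 1 * pp n s) =
            2 * vv n s * ((1 - s) * pp n s) := by ring
        rw [hps] at e2
        linear_combination e2)
      ((continuous_const.mul ((hcs 0).mul (hcu.mul hcv))).sub ((hcs 0).mul (hcv.pow 2)))
      (by simp [hv0]) (by simp)
    rw [intervalIntegral.integral_sub ((iz 0).const_mul _) (iy 0),
      intervalIntegral.integral_const_mul] at key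
    linarith
  refine ⟨hX, ?_, ?_⟩
  · intro m
    have hX1 := hX m
    have hX2 := hX (m + 1)
    have a0 := ha m
    have a1 := ha (m + 1)
    have b0 := hb m
    have b1 := hb (m + 1)
    have c1 := hc m
    push_cast at a1 b1
    have e12 : m + 1 + 1 = m + 2 := rfl
    rw [e12] at hX2 b1
    set D0 := ∫ s in (0 : ℝ)..1, s ^ m * uu n s ^ 2
    set D1 := ∫ s in (0 : ℝ)..1, s ^ (m + 1) * uu n s ^ 2
    set Z0 := ∫ s in (0 : ℝ)..1, s ^ m * (uu n s * vv n s)
    set Z1 := ∫ s in (0 : ℝ)..1, s ^ (m + 1) * (uu n s * vv n s)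
    set Y0 := ∫ s in (0 : ℝ)..1, s ^ m * vv n s ^ 2
    set Y1 := ∫ s in (0 : ℝ)..1, s ^ (m + 1) * vv n s ^ 2
    set X0 := Xm n m
    set X1 := Xm n (m + 1)
    set X2 := Xm n (m + 2)
    -- z = (m+1) d/(2n)
    have hY0 : (n : ℝ) ^ 2 * Y0 = X1 + ((m : ℝ) + 1) ^ 2 * D0 / 2 := by
      have h1 : (n : ℝ) * (((m : ℝ) + 1) * Z0) = (n : ℝ) ^ 2 * Y0 - X1 := by
        rw [b0]; field_simp
      have h2 : (n : ℝ) * (((m : ℝ) + 1) * Z0) = ((m : ℝ) + 1) * (((m : ℝ) + 1) * D0) / 2 := by
        rw [a0]; ring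
      linarith
    have hY1 : (n : ℝ) ^ 2 * Y1 = X2 + ((m : ℝ) + 2) ^ 2 * D1 / 2 := by
      have h1 : (n : ℝ) * (((m : ℝ) + 1 + 1) * Z1) = (n : ℝ) ^ 2 * Y1 - X2 := by
        rw [b1]; field_simp
      have h2 : (n : ℝ) * (((m : ℝ) + 1 + 1) * Z1) =
          ((m : ℝ) + 1 + 1) * (((m : ℝ) + 1 + 1) * D1) / 2 := by
        rw [a1]; ring
      linear_combination h2 - h1
    have hmain : ((m : ℝ) + 2) * ((n : ℝ) ^ 2 * Y1) - ((m : ℝ) + 1) * ((n : ℝ) ^ 2 * Y0) =
        ((m : ℝ) + 2) * (X1 - X2) := by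
      rw [hX2]
      linear_combination (n : ℝ) ^ 2 * c1 - (n : ℝ) ^ 2 * a1
    rw [hY0, hY1] at hmain
    linear_combination hmain
  · have hX1 := hX 0
    have a0 := ha 0
    have b0 := hb 0
    have c0 := hc0
    simp only [pow_zero, one_mul, Nat.cast_zero, zero_add] at hX1 a0 b0 c0
    set D0 := ∫ s in (0 : ℝ)..1, uu n s ^ 2
    set Z0 := ∫ s in (0 : ℝ)..1, uu n s * vv n s
    set Y0 := ∫ s in (0 : ℝ)..1, vv n s ^ 2
    set X0 := Xm n 0
    set X1 := Xm n 1
    have h1 : (n : ℝ) * Z0 = (n : ℝ) ^ 2 * Y0 - X1 := by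
      rw [b0]; field_simp
    linear_combination (-1 : ℝ) * hX1 + h1 + (n : ℝ) ^ 2 * c0 - (n : ℝ) ^ 2 * a0 + (1 / 2) * a0

end Helper71.P4
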